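import Pool.Agent.Helper74.FP.Goals

/-! Project FP (MP_266b34_co), packet F4: free products. -/

set_option autoImplicit false

namespace Pool.Agent.Helper80.FP

open Pool.Agent.Helper52.Wq2 Pool.Agent.Helper61.NW Pool.Agent.Helper74.FP Monoid Monoid.CoprodI
  Monoid.CoprodI.Word

universe u

theorem conn_star {V : Type*} {G : SimpleGraph V} {s : Set V} {r : V} (hr : r ∈ s)
    (h : ∀ x ∈ s, ∃ t ⊆ s, Conn G t ∧ r ∈ t ∧ x ∈ t) : Conn G s := by
  refine ⟨⟨r, hr⟩, ?_⟩
  intro A hA ⟨a, ha⟩ hcl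
  have step : ∀ t ⊆ s, Conn G t → (A ∩ t).Nonempty → t ⊆ A := by
    intro t hts ht hn x hx
    exact (ht.2 (A ∩ t) Set.inter_subset_right hn
      (fun y hy z hz hyz => ⟨hcl y hy.1 z (hts hz) hyz, hz⟩) hx).1
  obtain ⟨t, hts, ht, hrt, hat⟩ := h a (hA ha)
  have hrA : r ∈ A := step t hts ht ⟨a, ha, hat⟩ hrt
  intro x hx
  obtain ⟨t', hts', ht', hrt', hxt'⟩ := h x hx
  exact step t' hts' ht' ⟨r, hrA, hrt'⟩ hxt'

section

variable {ι : Type} {A B : ι → Type u} [∀ i, Group (A i)] [∀ i, Group (B i)]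

/-- The map of words. -/
def wmap (r : ∀ i, A i → B i) (hr : ∀ i a, a ≠ 1 → r i a ≠ 1) (w : Word A) : Word B where
  toList := w.toList.map (fun l => ⟨l.1, r l.1 l.2⟩)
  ne_one := by
    intro l hl
    rw [List.mem_map] at hl
    obtain ⟨l', hl', rfl⟩ := hl
    exact hr _ _ (w.ne_one l' hl')
  chain_ne := by
    rw [List.isChain_map]
    exact w.chain_ne

theorem wmap_inj (r : ∀ i, A i → B i) (hr : ∀ i a, a ≠ 1 → r i a ≠ 1)
    (hi : ∀ i, Function.Injective (r i)) : Function.Injective (wmap r hr) := by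
  intro w w' h
  apply Word.ext
  have h1 : w.toList.map (fun l : Σ i, A i => (⟨l.1, r l.1 l.2⟩ : Σ i, B i)) =
      w'.toList.map (fun l : Σ i, A i => (⟨l.1, r l.1 l.2⟩ : Σ i, B i)) := congrArg Word.toList h
  refine List.map_injective_iff.2 ?_ h1
  rintro ⟨i, a⟩ ⟨j, b⟩ hab
  simp only [Sigma.mk.injEq] at hab
  obtain ⟨rfl, hab⟩ := hab
  rw [hi i (eq_of_heq hab)]

theorem fst_wmap (r : ∀ i, A i → B i) (hr : ∀ i a, a ≠ 1 → r i a ≠ 1) (w : Word A) :
    fstIdx (wmap r hr w) = fstIdx w := by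
  unfold fstIdx wmap
  simp only [List.head?_map, Option.map_map]
  rfl

variable [DecidableEq ι] [∀ i, DecidableEq (A i)] [∀ i, DecidableEq (B i)]

theorem wmap_rcons (r : ∀ i, A i → B i) (hr : ∀ i a, a ≠ 1 → r i a ≠ 1) (hr1 : ∀ i, r i 1 = 1)
    {i : ι} (p : Pair A i) :
    wmap r hr (rcons p) =
      rcons ⟨r i p.head, wmap r hr p.tail, by rw [fst_wmap]; exact p.fstIdx_ne⟩ := by
  by_cases h : p.head = 1
  · have h1 : rcons p = p.tail := by rw [rcons, dif_pos h]
    have h2 : r i p.head = 1 := by rw [h, hr1]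
    rw [h1, rcons, dif_pos h2]
  · have h1 : rcons p = cons p.head p.tail p.fstIdx_ne h := by rw [rcons, dif_neg h]
    have h2 : r i p.head ≠ 1 := hr i _ h
    rw [h1, rcons, dif_neg h2]
    rfl

/-- The branch sets. -/
def br (r : ∀ i, A i → B i) (hr : ∀ i a, a ≠ 1 → r i a ≠ 1) (V : ∀ i, A i → Set (B i))
    (g : CoprodI A) : Set (CoprodI B) :=
  {x | x = (wmap r hr (Word.equiv g)).prod ∨ ∃ i, ∃ b ∈ V i (equivPair i (Word.equiv g)).head,
    x = of b * (wmap r hr (equivPair i (Word.equiv g)).tail).prod}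

theorem adj_mul {T : ∀ i, Set (B i)} {i : ι} {b b' : B i} (h : (cayL (T i)).Adj b b')
    (y : CoprodI B) : (cayL (US T)).Adj (of b * y) (of b' * y) := by
  unfold cayL at h ⊢
  rw [SimpleGraph.fromRel_adj] at h ⊢
  obtain ⟨hne, h⟩ := h
  refine ⟨fun he => hne (of_injective i (mul_right_cancel he)), ?_⟩
  have key : ∀ c c' : B i, c' * c⁻¹ ∈ T i → of c' * y * (of c * y)⁻¹ ∈ US T := by
    intro c c' hc
    refine ⟨i, _, hc, ?_⟩
    rw [map_mul, map_inv]
    group
  rcases h with h | h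
  · exact Or.inl (key _ _ h)
  · exact Or.inr (key _ _ h)

/-- normalized decoding -/
def Nd (r : ∀ i, A i → B i) (hr : ∀ i a, a ≠ 1 → r i a ≠ 1) (V : ∀ i, A i → Set (B i))
    (X : Word B) (w : Word A) : Prop :=
  X = wmap r hr w ∨ ∃ (i : ι) (b : B i) (p : Pair A i) (hb : b ≠ 1), b ∈ V i p.head ∧
    w = rcons p ∧ X = cons b (wmap r hr p.tail) (by rw [fst_wmap]; exact p.fstIdx_ne) hb

theorem nd_of_br (r : ∀ i, A i → B i) (hr : ∀ i a, a ≠ 1 → r i a ≠ 1)
    (V : ∀ i, A i → Set (B i))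
    (hV : ∀ i a a' x, x ∈ V i a → x ∈ V i a' → a = a') (h1 : ∀ i, (1 : B i) ∈ V i 1)
    (g : CoprodI A) (x : CoprodI B) (hx : x ∈ br r hr V g) :
    Nd r hr V (Word.equiv x) (Word.equiv g) := by
  rcases hx with hx | ⟨i, b, hb, hx⟩
  · left
    rw [hx]
    exact Word.equiv.apply_symm_apply _
  · set p := equivPair i (Word.equiv g) with hp
    have hgp : Word.equiv g = rcons p := by
      rw [hp, ← equivPair_symm, Equiv.symm_apply_apply]
    have hX : Word.equiv x = rcons ⟨b, wmap r hr p.tail, by rw [fst_wmap]; exact p.fstIdx_ne⟩ := by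
      have h2 := prod_rcons (⟨b, wmap r hr p.tail, by rw [fst_wmap]; exact p.fstIdx_ne⟩ : Pair B i)
      rw [hx]
      change Word.equiv (of b * (wmap r hr p.tail).prod) = _
      rw [← h2]
      exact Word.equiv.apply_symm_apply _
    by_cases hb1 : b = 1
    · left
      subst hb1
      have ha : p.head = 1 := hV i _ _ 1 hb (h1 i)
      rw [hX, hgp]
      have e1 : rcons p = p.tail := by rw [rcons, dif_pos ha]
      rw [e1, rcons, dif_pos rfl]
    · right
      refine ⟨i, b, p, hb1, hb, hgp, ?_⟩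
      rw [hX, rcons, dif_neg hb1]

theorem nd_unique (r : ∀ i, A i → B i) (hr : ∀ i a, a ≠ 1 → r i a ≠ 1)
    (V : ∀ i, A i → Set (B i)) (hrV : ∀ i a, r i a ∈ V i a)
    (hV : ∀ i a a' x, x ∈ V i a → x ∈ V i a' → a = a')
    (X : Word B) (w w' : Word A) (h : Nd r hr V X w) (h' : Nd r hr V X w') : w = w' := by
  have hinj : ∀ i, Function.Injective (r i) := by
    intro i a a' haa
    refine hV i a a' (r i a) (hrV i a) ?_
    rw [haa]
    exact hrV i a'
  have key : ∀ (w w' : Word A), X = wmap r hr w → (∃ (i : ι) (b : B i) (p : Pair A i) (hb : b ≠ 1),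
      b ∈ V i p.head ∧
      w' = rcons p ∧ X = cons b (wmap r hr p.tail) (by rw [fst_wmap]; exact p.fstIdx_ne) hb) →
      w = w' := by
    rintro w w' hw ⟨i, b, p, hb, hbV, hw', hX⟩
    have hl : (wmap r hr w).toList = (⟨i, b⟩ : Σ i, B i) :: (wmap r hr p.tail).toList := by
      rw [← hw, hX]
      rfl
    have hl' : w.toList.map (fun l : Σ i, A i => (⟨l.1, r l.1 l.2⟩ : Σ i, B i)) =
      (⟨i, b⟩ : Σ i, B i) :: (wmap r hr p.tail).toList := hl
    obtain ⟨⟨j, a⟩, l, hwl, hja, hll⟩ := List.map_eq_cons_iff.1 hl'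
    simp only [Sigma.mk.injEq] at hja
    obtain ⟨rfl, hja⟩ := hja
    have hja' : r j a = b := eq_of_heq hja
    have ha : a = p.head := hV j a p.head b (by rw [← hja']; exact hrV j a) hbV
    have hl2 : l = p.tail.toList := by
      have h3 : l.map (fun l : Σ i, A i => (⟨l.1, r l.1 l.2⟩ : Σ i, B i)) =
        p.tail.toList.map (fun l : Σ i, A i => (⟨l.1, r l.1 l.2⟩ : Σ i, B i)) := hll
      refine List.map_injective_iff.2 ?_ h3
      rintro ⟨i, a⟩ ⟨j, b⟩ hab
      simp only [Sigma.mk.injEq] at hab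
      obtain ⟨rfl, hab⟩ := hab
      rw [hinj i (eq_of_heq hab)]
    have ha1 : a ≠ 1 := by
      have := w.ne_one ⟨j, a⟩ (by rw [hwl]; exact List.mem_cons_self)
      exact this
    have hp1 : p.head ≠ 1 := by rw [← ha]; exact ha1
    apply Word.ext
    rw [hw', rcons, dif_neg hp1, hwl, hl2, ha]
    rfl
  rcases h with h | h <;> rcases h' with h' | h'
  · exact wmap_inj r hr hinj (h.symm.trans h')
  · exact key w w' h h'
  · exact (key w' w h' h).symm
  · obtain ⟨i, b, p, hb, hbV, hw, hX⟩ := h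
    obtain ⟨j, c, q, hc, hcV, hw', hX'⟩ := h'
    have hl := congrArg Word.toList (hX.symm.trans hX')
    rw [cons_toList, cons_toList, List.cons.injEq] at hl
    obtain ⟨h1, h2⟩ := hl
    simp only [Sigma.mk.injEq] at h1
    obtain ⟨rfl, h1⟩ := h1
    have h1' : b = c := eq_of_heq h1
    subst h1'
    have ht : p.tail = q.tail := wmap_inj r hr hinj (Word.ext h2)
    have hh : p.head = q.head := hV _ _ _ _ hbV hcV
    rw [hw, hw']
    congr 1
    exact Pair.ext hh ht

theorem core (S : ∀ i, Set (A i)) (T : ∀ i, Set (B i)) (V : ∀ i, A i → Set (B i))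
    (hS : ∀ i, IsGen (S i)) (hM : ∀ i, Model (cayL (S i)) (cayL (T i)) (V i))
    (h1 : ∀ i, (1 : B i) ∈ V i 1) : Mn (cayL (US S)) (cayL (US T)) := by
  have hex : ∀ i (a : A i), ∃ b ∈ V i a, a = 1 → b = 1 := by
    intro i a
    by_cases ha : a = 1
    · exact ⟨1, by rw [ha]; exact h1 i, fun _ => rfl⟩
    · obtain ⟨b, hb⟩ := ((hM i).1 a).1
      exact ⟨b, hb, fun h => absurd h ha⟩
  choose r hrV hr1 using hex
  have hV : ∀ i a a' x, x ∈ V i a → x ∈ V i a' → a = a' := fun i => (hM i).2.1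
  have hr : ∀ i a, a ≠ 1 → r i a ≠ 1 := by
    intro i a ha h
    exact ha (hV i a 1 1 (by rw [← h]; exact hrV i a) (h1 i))
  refine ⟨br r hr V, ?_, ?_, ?_⟩
  · intro g
    refine conn_star (r := (wmap r hr (Word.equiv g)).prod) (Or.inl rfl) ?_
    have hroot : ∀ i, (wmap r hr (Word.equiv g)).prod =
        of (r i (equivPair i (Word.equiv g)).head) *
          (wmap r hr (equivPair i (Word.equiv g)).tail).prod := by
      intro i
      have e : Word.equiv g = rcons (equivPair i (Word.equiv g)) := by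
        rw [← equivPair_symm, Equiv.symm_apply_apply]
      conv_lhs => rw [e]
      rw [wmap_rcons r hr (fun i => hr1 i 1 rfl), prod_rcons]
    intro x hx
    rcases hx with hx | ⟨i, b, hb, hx⟩
    · refine ⟨{x}, ?_, conn_singleton _ _, ?_, rfl⟩
      · rintro y rfl
        exact Or.inl hx
      · exact hx.symm
    · refine ⟨(fun c : B i => of c * (wmap r hr (equivPair i (Word.equiv g)).tail).prod) ''
        (V i (equivPair i (Word.equiv g)).head), ?_, ?_, ?_, ?_⟩
      · rintro _ ⟨c, hc, rfl⟩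
        exact Or.inr ⟨i, c, hc, rfl⟩
      · refine Conn.image ((hM i).1 _) _ ?_
        intro c _ d _ hcd
        exact Or.inr (adj_mul hcd _)
      · exact ⟨_, hrV i _, (hroot i).symm⟩
      · exact ⟨b, hb, hx.symm⟩
  · intro g g' x hx hx'
    apply Word.equiv.injective
    exact nd_unique r hr V hrV hV _ _ _ (nd_of_br r hr V hV h1 g x hx)
      (nd_of_br r hr V hV h1 g' x hx')
  · have key : ∀ (g : CoprodI A) (i : ι) (s : A i), s ∈ S i → ∃ x ∈ br r hr V g,
        ∃ y ∈ br r hr V (of s * g), (cayL (US T)).Adj x y := by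
      intro g i s hs
      have hs1 : s ≠ 1 := by
        rintro rfl
        exact (hS i).2.2 hs
      set p := equivPair i (Word.equiv g) with hp
      have hadj : (cayL (S i)).Adj p.head (s * p.head) := by
        unfold cayL
        rw [SimpleGraph.fromRel_adj]
        refine ⟨?_, Or.inl ?_⟩
        · intro h
          apply hs1
          exact (mul_eq_right.1 h.symm)
        · rw [mul_inv_cancel_right]; exact hs
      obtain ⟨b, hb, b', hb', hbb⟩ := (hM i).2.2 _ _ hadj
      have e : equivPair i (Word.equiv (of s * g)) = ⟨s * p.head, p.tail, p.fstIdx_ne⟩ := by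
        have e1 : Word.equiv (of s * g) = of s • Word.equiv g := by
          change (of s * g) • (empty : Word A) = of s • (g • (empty : Word A))
          rw [mul_smul]
        rw [e1, equivPair_smul_same]
      refine ⟨of b * (wmap r hr p.tail).prod, Or.inr ⟨i, b, hb, rfl⟩,
        of b' * (wmap r hr p.tail).prod, Or.inr ⟨i, b', ?_, ?_⟩, adj_mul hbb _⟩
      · rw [e]; exact hb'
      · rw [e]
    intro g g' hgg
    unfold cayL at hgg
    rw [SimpleGraph.fromRel_adj] at hgg
    rcases hgg.2 with ⟨i, s, hs, he⟩ | ⟨i, s, hs, he⟩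
    · obtain ⟨x, hx, y, hy, hxy⟩ := key g i s hs
      have e : of s * g = g' := by rw [← he]; group
      rw [e] at hy
      exact ⟨x, hx, y, hy, hxy⟩
    · obtain ⟨x, hx, y, hy, hxy⟩ := key g' i s hs
      have e : of s * g' = g := by rw [← he]; group
      rw [e] at hy
      exact ⟨y, hy, x, hx, hxy.symm⟩

end

theorem f4 : F4Stmt.{u} := by
  classical
  intro ι A B _ _ S T V hS _ hM h1
  exact core S T V hS hM h1

end Pool.Agent.Helper80.FP
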